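import Mathlib

set_option autoImplicit false

namespace Pool.Agent.Results.MP_563419_an.NoExt

open Set Filter Topology Complex ComplexConjugate

/-- The curve `xy = 1`. -/
def X : Set (ℂ × ℂ) := {p | p.1 * p.2 = 1}

/-- The curve `x²y = 1`. -/
def Y : Set (ℂ × ℂ) := {p | p.1 ^ 2 * p.2 = 1}

lemma noretr {K : ℂ → ℂ} (hK : Continuous K) (h0 : ∀ z, K z ≠ 0)
    (h1 : ∀ z, z * conj z = 1 → K z = z) : False := by
  obtain ⟨L, ⟨-, hL⟩, -⟩ := isCoveringMap_exp.existsUnique_continuousMap_lifts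
    ⟨fun z => ⟨K z, h0 z⟩, by fun_prop⟩ 0 (log (K 0)) (Subtype.ext (exp_log (h0 0)))
  have e : ∀ t : ℝ, exp (L (exp (t * I)) - t * I) = 1 := fun t => by
    have := congrArg Subtype.val (congrFun hL (exp (t * I)))
    simp only [Function.comp, ContinuousMap.coe_mk] at this
    rw [exp_sub, this, h1, div_self (exp_ne_zero _)]
    simp [← exp_conj, ← exp_add]
  have := isCoveringMap_exp.const_of_comp (g := fun t : ℝ => L (exp (t * I)) - t * I) (by fun_prop)
    (fun a b => Subtype.ext ((e a).trans (e b).symm)) 0 (2 * Real.pi)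
  simp [exp_two_pi_mul_I, eq_sub_iff_add_eq] at this

lemma cont {F : ℂ × ℂ → ℂ} (hF : ContDiff ℂ 1 F) (h0 : ∀ p ∈ X, F p = 0) :
    Continuous fun z : ℂ => if z * conj z = 1 then fderiv ℂ F (z, conj z) (0, z⁻¹)
      else F (z, conj z) / (z * conj z - 1) := by
  have c1 := hF.continuous
  have c2 := hF.continuous_fderiv one_ne_zero
  refine continuous_iff_continuousAt.2 fun a => ?_
  by_cases ha : a * conj a = 1
  · have a0 : a ≠ 0 := by
      rintro rfl
      simp at ha
    have ia : ContinuousAt (fun z : ℂ => z⁻¹) a := continuousAt_inv₀ a0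
    have t1 : ContinuousAt (fun z : ℂ => fderiv ℂ F (z, conj z) (0, z⁻¹)) a := by fun_prop
    have t2 : ContinuousAt (fun z : ℂ => fderiv ℂ F (a, conj a) (0, z⁻¹)) a := by fun_prop
    have t3 : ContinuousAt (fun z : ℂ => ((z, conj z), (z, z⁻¹))) a := by fun_prop
    have o := (hF.contDiffAt.hasStrictFDerivAt (x := (a, conj a)) one_ne_zero).isLittleO
    rw [ContinuousAt, ← eq_inv_of_mul_eq_one_right ha] at t3
    rw [ContinuousAt, if_pos ha, Metric.tendsto_nhds]
    intro ε ε0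
    filter_upwards [Metric.tendsto_nhds.1 t1 ε ε0, Metric.tendsto_nhds.1 t2 (ε / 2) (by positivity),
      (o.comp_tendsto t3).bound (c := ε / 2 / (‖a⁻¹‖ + 1)) (by positivity),
      ia.norm.eventually (gt_mem_nhds (lt_add_one _)), eventually_ne_nhds a0] with z z1 z2 z3 z4 z5
    split_ifs with hz
    · exact z1
    have hz' := sub_ne_zero.2 hz
    have e : (z, conj z) - (z, z⁻¹) = (z * conj z - 1) • ((0 : ℂ), z⁻¹) := by
      ext <;> simp
      field_simp
    simp only [Function.comp, e, map_smul, h0 (z, z⁻¹) (mul_inv_cancel₀ z5), sub_zero, norm_smul,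
      Prod.norm_mk, norm_zero, max_eq_right (norm_nonneg _), smul_eq_mul] at z3
    refine (dist_triangle _ (fderiv ℂ F (a, conj a) (0, z⁻¹)) _).trans_lt ?_
    suffices dist (F (z, conj z) / (z * conj z - 1)) (fderiv ℂ F (a, conj a) (0, z⁻¹)) ≤ ε / 2 by
      linarith
    rw [dist_eq_norm, div_sub' hz', norm_div, div_le_iff₀ (norm_pos_iff.2 hz')]
    refine z3.trans ?_
    rw [mul_comm ‖_‖, ← mul_assoc, div_mul_eq_mul_div, mul_div_assoc]
    gcongr
    exact mul_le_of_le_one_right (by positivity) ((div_le_one (by positivity)).2 z4.le)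
  · have t : ContinuousAt (fun z : ℂ => F (z, conj z) / (z * conj z - 1)) a :=
      ContinuousAt.div (by fun_prop) (by fun_prop) (sub_ne_zero.2 ha)
    refine t.congr ?_
    filter_upwards [ContinuousAt.eventually_ne (g := fun z : ℂ => z * conj z) (by fun_prop) ha]
      with z hz using (if_neg hz).symm

theorem result : (MapsTo (fun p => (p.1, p.2 ^ 2)) X Y ∧ MapsTo (fun p => (p.1, p.1 * p.2)) Y X ∧
      InvOn (fun p => (p.1, p.1 * p.2)) (fun p => (p.1, p.2 ^ 2)) X Y) ∧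
    ¬ ∃ Φ : ℂ × ℂ ≃ ℂ × ℂ, ContDiff ℂ 1 Φ ∧ ContDiff ℂ 1 Φ.symm ∧
      EqOn Φ (fun p => (p.1, p.2 ^ 2)) X := by
  have m1 : MapsTo (fun p : ℂ × ℂ => (p.1, p.2 ^ 2)) X Y := fun p (h : _ = _) => by
    change _ = _
    rw [← mul_pow, h, one_pow]
  have m2 : MapsTo (fun p : ℂ × ℂ => (p.1, p.1 * p.2)) Y X := fun p (h : _ = _) => by
    change _ = _
    linear_combination h
  have m3 : ∀ p ∈ Y, ((p.1, (p.1 * p.2) ^ 2) : ℂ × ℂ) = p := fun p (h : _ = _) =>
    Prod.ext rfl (by linear_combination p.2 * h)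
  refine ⟨⟨m1, m2, fun p (h : _ = _) => Prod.ext rfl (by linear_combination p.2 * h), m3⟩, ?_⟩
  rintro ⟨Φ, h1, h2, h3⟩
  let F : ℂ × ℂ → ℂ := fun p => (Φ p).1 ^ 2 * (Φ p).2 - 1
  have hF : ContDiff ℂ 1 F := by fun_prop
  have F0 : ∀ p, F p = 0 ↔ p ∈ X := fun p => by
    refine ⟨fun h => ?_, fun h => sub_eq_zero.2 (h3 h ▸ m1 h)⟩
    have y : Φ p ∈ Y := sub_eq_zero.1 h
    rw [← Φ.injective ((h3 (m2 y)).trans (m3 _ y))]
    exact m2 y
  have d := fun p => (h1.differentiable one_ne_zero p).hasFDerivAt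
  let J : ℂ × ℂ → ℂ := fun p => (fderiv ℂ Φ p (1, 0)).1 * (fderiv ℂ Φ p (0, 1)).2 -
    (fderiv ℂ Φ p (1, 0)).2 * (fderiv ℂ Φ p (0, 1)).1
  have lin : ∀ p (u v : ℂ), fderiv ℂ Φ p (u, v) = u • fderiv ℂ Φ p (1, 0) + v • fderiv ℂ Φ p (0, 1) :=
    fun p u v => by simp [← map_smul, ← map_add]
  have J0 : ∀ p, J p ≠ 0 := fun p h => by
    have inj : ∀ v, fderiv ℂ Φ p v = 0 → v = 0 := fun v hv => by
      have := ((h2.differentiable one_ne_zero (Φ p)).hasFDerivAt.comp p (d p)).unique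
        (by simpa using hasFDerivAt_id p)
      simpa [hv] using (congrArg (· v) this).symm
    have a := inj ((fderiv ℂ Φ p (0, 1)).2, -(fderiv ℂ Φ p (1, 0)).2) (by
      rw [lin]
      ext <;> simp <;> [linear_combination h; ring])
    have b := inj ((fderiv ℂ Φ p (0, 1)).1, -(fderiv ℂ Φ p (1, 0)).1) (by
      rw [lin]
      ext <;> simp <;> [ring; linear_combination -h])
    simp only [Prod.mk_eq_zero, neg_eq_zero] at a b
    simpa using inj (1, 0) (Prod.ext b.2 a.2)
  have cJ : Continuous J := by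
    have := h1.continuous_fderiv one_ne_zero
    fun_prop
  have key : ∀ z : ℂ, z * conj z = 1 → fderiv ℂ F (z, conj z) (0, z⁻¹) = z * J (z, conj z) := by
    intro z hz
    have z0 : z ≠ 0 := left_ne_zero_of_mul_eq_one hz
    rw [eq_inv_of_mul_eq_one_right hz]
    have e1 := (d (z, z⁻¹)).comp_hasDerivAt z ((hasDerivAt_id z).prodMk (hasDerivAt_inv z0))
    have e2 := e1.unique (((hasDerivAt_id z).prodMk ((hasDerivAt_inv z0).pow 2)).congr_of_eventuallyEq
      (by filter_upwards [eventually_ne_nhds z0] with t ht using h3 (mul_inv_cancel₀ ht)))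
    have e3 := (((d (z, z⁻¹)).fst.pow 2).mul (d (z, z⁻¹)).snd).sub_const 1
    rw [lin] at e2
    have a := congrArg Prod.fst e2
    have b := congrArg Prod.snd e2
    rw [show fderiv ℂ F (z, z⁻¹) = _ from e3.fderiv]
    simp only [J]
    simp [h3 (show (z, z⁻¹) ∈ X from mul_inv_cancel₀ z0), lin _ 0 z⁻¹] at a b ⊢
    rw [← eq_sub_iff_add_eq] at a b
    rw [a, b]
    field_simp
    ring
  refine noretr ((cont hF fun p => (F0 p).2).div (cJ.comp (f := fun z : ℂ => (z, conj z))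
    (by fun_prop)) fun z => J0 _) (fun z => div_ne_zero ?_ (J0 _)) fun z hz => ?_
  · beta_reduce
    split_ifs with hz
    · rw [key z hz]
      exact mul_ne_zero (left_ne_zero_of_mul_eq_one hz) (J0 _)
    · exact div_ne_zero (fun h => hz ((F0 _).1 h)) (sub_ne_zero.2 hz)
  · simp only [Pi.div_apply, if_pos hz, key z hz, Function.comp]
    exact mul_div_cancel_right₀ _ (J0 _)

end Pool.Agent.Results.MP_563419_an.NoExt
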